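import Mathlib

/-!
# Common neighbours in Saxl graphs: a machine for counterexamples

Let `K` be an irreducible group of automorphisms of a finite abelian group `U` with `r ≥ 1` regular
orbits, and let `u : U` be an element which is not of the form `x - k x`.  The wreath product of
`K` and the symmetric group of degree `r` acts on `U ^ r` with exactly one regular orbit (vectors
whose coordinates form a transversal of the regular orbits of `K`).  In the affine group of
`U ^ r` with this point stabiliser, the points `0` and `(u, 0, …, 0)` have no common neighbour in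
the Saxl graph.
-/

set_option autoImplicit false

namespace Pool.Agent.H3.Saxl

/-- The permutation `x ↦ (i ↦ k i (x (σ i)) + v i)`. -/
def wrPerm {U : Type} [AddCommGroup U] {I : Type} (σ : Equiv.Perm I) (k : I → Equiv.Perm U)
    (v : I → U) : Equiv.Perm (I → U) where
  toFun x i := k i (x (σ i)) + v i
  invFun y j := (k (σ.symm j)).symm (y (σ.symm j) - v (σ.symm j))
  left_inv x := by
    funext j
    simp
  right_inv y := by
    funext i
    simp

lemma wrPerm_apply {U : Type} [AddCommGroup U] {I : Type} (σ : Equiv.Perm I)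
    (k : I → Equiv.Perm U) (v : I → U) (x : I → U) (i : I) :
    wrPerm σ k v x i = k i (x (σ i)) + v i := rfl

/-- All elements of the permutation group `K` are additive. -/
def IsAdd {U : Type} [AddCommGroup U] (K : Subgroup (Equiv.Perm U)) : Prop :=
  ∀ k ∈ K, ∀ x y : U, k (x + y) = k x + k y

variable {U : Type} [AddCommGroup U] {K : Subgroup (Equiv.Perm U)} {I : Type}

lemma IsAdd.zero (h : IsAdd K) {k : Equiv.Perm U} (hk : k ∈ K) : k 0 = 0 := by
  have := h k hk 0 0
  rw [add_zero] at this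
  exact left_eq_add.1 this

lemma IsAdd.neg (h : IsAdd K) {k : Equiv.Perm U} (hk : k ∈ K) (x : U) : k (-x) = -k x := by
  rw [eq_neg_iff_add_eq_zero, ← h k hk, neg_add_cancel, h.zero hk]

lemma IsAdd.sub (h : IsAdd K) {k : Equiv.Perm U} (hk : k ∈ K) (x y : U) :
    k (x - y) = k x - k y := by
  rw [sub_eq_add_neg, h k hk, h.neg hk, sub_eq_add_neg]

/-- The affine group: translations extended by the wreath product of `K` and `Sym I`. -/
def wr (hadd : IsAdd K) (I : Type) : Subgroup (Equiv.Perm (I → U)) where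
  carrier := {g | ∃ (σ : Equiv.Perm I) (k : I → Equiv.Perm U) (v : I → U),
    (∀ i, k i ∈ K) ∧ g = wrPerm σ k v}
  mul_mem' := by
    rintro _ _ ⟨σ, k, v, hk, rfl⟩ ⟨σ', k', v', hk', rfl⟩
    refine ⟨σ' * σ, fun i => k i * k' (σ i), fun i => k i (v' (σ i)) + v i,
      fun i => K.mul_mem (hk i) (hk' _), ?_⟩
    ext x i
    rw [Equiv.Perm.mul_apply, wrPerm_apply, wrPerm_apply, wrPerm_apply, hadd _ (hk i), add_assoc]
    rfl
  one_mem' := by
    refine ⟨1, fun _ => 1, 0, fun _ => K.one_mem, ?_⟩
    ext x i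
    rw [wrPerm_apply]
    simp
  inv_mem' := by
    rintro _ ⟨σ, k, v, hk, rfl⟩
    refine ⟨σ⁻¹, fun j => (k (σ⁻¹ j))⁻¹, fun j => - (k (σ⁻¹ j))⁻¹ (v (σ⁻¹ j)),
      fun i => K.inv_mem (hk _), ?_⟩
    rw [inv_eq_iff_mul_eq_one]
    ext x i
    rw [Equiv.Perm.mul_apply, wrPerm_apply, wrPerm_apply, hadd _ (hk i), hadd.neg (hk i)]
    simp

lemma wrPerm_mem (hadd : IsAdd K) {σ : Equiv.Perm I} {k : I → Equiv.Perm U} {v : I → U}
    (hk : ∀ i, k i ∈ K) : wrPerm σ k v ∈ wr hadd I := ⟨σ, k, v, hk, rfl⟩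

/-- an irreducible nontrivial group has no fixed vectors -/
lemma exists_moved (hadd : IsAdd K)
    (hirr : ∀ W : AddSubgroup U, (∀ k ∈ K, ∀ w ∈ W, k w ∈ W) → W = ⊥ ∨ W = ⊤)
    (hK : K ≠ ⊥) {x : U} (hx : x ≠ 0) : ∃ k ∈ K, k x ≠ x := by
  by_contra hcon
  push Not at hcon
  let W : AddSubgroup U :=
    { carrier := {x | ∀ k ∈ K, k x = x}
      add_mem' := by
        intro a b ha hb k hk
        rw [hadd k hk, ha k hk, hb k hk]
      zero_mem' := fun k hk => hadd.zero hk
      neg_mem' := by
        intro a ha k hk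
        rw [hadd.neg hk, ha k hk] }
  have hW : ∀ k ∈ K, ∀ w ∈ W, k w ∈ W := by
    intro k hk w hw
    rw [hw k hk]
    exact hw
  rcases hirr W hW with h | h
  · have : x ∈ W := hcon
    rw [h, AddSubgroup.mem_bot] at this
    exact hx this
  · apply hK
    rw [Subgroup.eq_bot_iff_forall]
    intro k hk
    ext w
    have : w ∈ W := by rw [h]; exact AddSubgroup.mem_top w
    exact this k hk

/-- irreducibility of the wreath product -/
lemma wr_irreducible [Finite I] (hadd : IsAdd K)
    (hirr : ∀ W : AddSubgroup U, (∀ k ∈ K, ∀ w ∈ W, k w ∈ W) → W = ⊥ ∨ W = ⊤)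
    (hK : K ≠ ⊥) (W : AddSubgroup (I → U))
    (hW : ∀ (σ : Equiv.Perm I) (k : I → Equiv.Perm U), (∀ i, k i ∈ K) →
      ∀ w ∈ W, wrPerm σ k 0 w ∈ W) : W = ⊥ ∨ W = ⊤ := by
  classical
  rw [or_iff_not_imp_left]
  intro hne
  obtain ⟨w, hw, hw0⟩ : ∃ w, w ∈ W ∧ w ≠ 0 := by
    by_contra hcon
    push Not at hcon
    apply hne
    rw [AddSubgroup.eq_bot_iff_forall]
    exact hcon
  obtain ⟨i₀, hi₀⟩ : ∃ i, w i ≠ 0 := Function.ne_iff.1 hw0
  obtain ⟨k₀, hk₀, hmove⟩ := exists_moved hadd hirr hK hi₀
  have hsingle : ∀ k ∈ K, ∀ x ∈ W,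
      wrPerm 1 (Function.update (fun _ : I => (1 : Equiv.Perm U)) i₀ k) 0 x ∈ W := by
    intro k hk x hx
    refine hW _ _ (fun i => ?_) x hx
    by_cases h : i = i₀
    · subst h; rw [Function.update_self]; exact hk
    · rw [Function.update_of_ne h]; exact K.one_mem
  have h1 : Pi.single i₀ (k₀ (w i₀) - w i₀) ∈ W := by
    have h2 := W.sub_mem (hsingle k₀ hk₀ w hw) hw
    have h3 : wrPerm 1 (Function.update (fun _ : I => (1 : Equiv.Perm U)) i₀ k₀) 0 w - w =
        Pi.single i₀ (k₀ (w i₀) - w i₀) := by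
      funext i
      rw [Pi.sub_apply, wrPerm_apply]
      by_cases h : i = i₀
      · subst h; simp
      · simp [h]
    rwa [h3] at h2
  let W₀ : AddSubgroup U :=
    { carrier := {x | Pi.single i₀ x ∈ W}
      add_mem' := by
        intro a b ha hb
        change Pi.single i₀ (a + b) ∈ W
        rw [Pi.single_add]
        exact W.add_mem ha hb
      zero_mem' := by
        change Pi.single i₀ 0 ∈ W
        rw [Pi.single_zero]
        exact W.zero_mem
      neg_mem' := by
        intro a ha
        change Pi.single i₀ (-a) ∈ W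
        rw [Pi.single_neg]
        exact W.neg_mem ha }
  have hW₀ : ∀ k ∈ K, ∀ x ∈ W₀, k x ∈ W₀ := by
    intro k hk x hx
    have h2 := hsingle k hk _ hx
    have h3 : wrPerm 1 (Function.update (fun _ : I => (1 : Equiv.Perm U)) i₀ k) 0
        (Pi.single i₀ x) = Pi.single i₀ (k x) := by
      funext i
      rw [wrPerm_apply]
      by_cases h : i = i₀
      · subst h; simp
      · simp [h]
    rw [h3] at h2
    exact h2
  have hW₀top : W₀ = ⊤ := by
    rcases hirr W₀ hW₀ with h | h
    · exfalso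
      have h2 : k₀ (w i₀) - w i₀ ∈ W₀ := h1
      rw [h, AddSubgroup.mem_bot, sub_eq_zero] at h2
      exact hmove h2
    · exact h
  have hall : ∀ (j : I) (x : U), Pi.single j x ∈ W := by
    intro j x
    have h2 : x ∈ W₀ := by rw [hW₀top]; exact AddSubgroup.mem_top x
    have h3 := hW (Equiv.swap i₀ j) (fun _ => 1) (fun _ => K.one_mem) _ h2
    have h4 : wrPerm (Equiv.swap i₀ j) (fun _ => (1 : Equiv.Perm U)) 0 (Pi.single i₀ x) =
        Pi.single j x := by
      funext i
      rw [wrPerm_apply]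
      by_cases h : i = j
      · subst h; simp
      · have : Equiv.swap i₀ j i ≠ i₀ := by
          intro h5
          apply h
          rw [Equiv.swap_apply_eq_iff, Equiv.swap_apply_left] at h5
          exact h5
        simp [h, this]
    rw [h4] at h3
    exact h3
  rw [eq_top_iff]
  intro v _
  cases nonempty_fintype I
  have h5 : v = ∑ i, Pi.single i (v i) := (Finset.univ_sum_single v).symm
  rw [h5]
  exact W.sum_mem fun i _ => hall i (v i)

lemma trans_apply (v x : I → U) : wrPerm 1 (fun _ => (1 : Equiv.Perm U)) v x = x + v := rfl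

/-- the affine group is primitive -/
lemma wr_preprimitive [Finite I] (hadd : IsAdd K)
    (hirr : ∀ W : AddSubgroup U, (∀ k ∈ K, ∀ w ∈ W, k w ∈ W) → W = ⊥ ∨ W = ⊤)
    (hK : K ≠ ⊥) : MulAction.IsPreprimitive (wr hadd I) (I → U) := by
  have htrans : ∀ v : I → U, wrPerm 1 (fun _ => 1) v ∈ wr hadd I := fun v =>
    wrPerm_mem hadd fun _ => K.one_mem
  have hpre : MulAction.IsPretransitive (wr hadd I) (I → U) := by
    refine ⟨fun x y => ⟨⟨wrPerm 1 (fun _ => 1) (y - x), htrans _⟩, ?_⟩⟩
    change wrPerm 1 (fun _ => (1 : Equiv.Perm U)) (y - x) x = y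
    rw [trans_apply]
    abel
  refine MulAction.IsPreprimitive.of_isTrivialBlock_base (0 : I → U) ?_
  intro B h0 hB
  have hinv : ∀ g ∈ wr hadd I, ∀ b ∈ B, g b ∈ B → ∀ x ∈ B, g x ∈ B := by
    intro g hg b hb hgb x hx
    have h1 := (MulAction.isBlock_iff_smul_eq_of_nonempty.1 hB) (g := ⟨g, hg⟩)
      ⟨g b, ⟨b, hb, rfl⟩, hgb⟩
    rw [← h1]
    exact ⟨x, hx, rfl⟩
  let W : AddSubgroup (I → U) :=
    { carrier := B
      add_mem' := by
        intro a b ha hb
        have := hinv _ (htrans b) 0 h0 (by rw [trans_apply, zero_add]; exact hb) a ha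
        rwa [trans_apply] at this
      zero_mem' := h0
      neg_mem' := by
        intro a ha
        have := hinv _ (htrans (-a)) a ha (by rw [trans_apply, add_neg_cancel]; exact h0) 0 h0
        rwa [trans_apply, zero_add] at this }
  have hW : ∀ (σ : Equiv.Perm I) (k : I → Equiv.Perm U), (∀ i, k i ∈ K) →
      ∀ w ∈ W, wrPerm σ k 0 w ∈ W := by
    intro σ k hk w hw
    refine hinv _ (wrPerm_mem hadd hk) 0 h0 ?_ w hw
    have : wrPerm σ k 0 0 = 0 := by
      funext i
      rw [wrPerm_apply]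
      simp [hadd.zero (hk i)]
    rw [this]
    exact h0
  rcases wr_irreducible hadd hirr hK W hW with h | h
  · left
    intro a ha b hb
    have ha' : a ∈ W := ha
    have hb' : b ∈ W := hb
    rw [h, AddSubgroup.mem_bot] at ha' hb'
    rw [ha', hb']
  · right
    ext x
    constructor
    · intro _; trivial
    · intro _
      have : x ∈ W := by rw [h]; exact AddSubgroup.mem_top x
      exact this

end Pool.Agent.H3.Saxl
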