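import Mathlib
import Pool.Agent.H3.Saxl.General

/-!
# Common neighbours in Saxl graphs: the counterexample machine, second half

We index the coordinates by the regular orbits of `K` themselves.
-/

set_option autoImplicit false

namespace Pool.Agent.H3.Saxl

set_option linter.unusedSectionVars false

variable {U : Type} [AddCommGroup U] {K : Subgroup (Equiv.Perm U)} {I : Type}

/-- `x` has trivial stabiliser in `K`. -/
def Reg (K : Subgroup (Equiv.Perm U)) (x : U) : Prop := ∀ k ∈ K, k x = x → k = 1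

/-- the `K`-orbit of `x` -/
def orb (K : Subgroup (Equiv.Perm U)) (x : U) : Set U := {y | ∃ k ∈ K, y = k x}

lemma self_mem_orb (x : U) : x ∈ orb K x := ⟨1, K.one_mem, rfl⟩

lemma orb_eq {x y : U} (h : y ∈ orb K x) : orb K y = orb K x := by
  obtain ⟨k, hk, rfl⟩ := h
  ext z
  constructor
  · rintro ⟨l, hl, rfl⟩
    exact ⟨l * k, K.mul_mem hl hk, rfl⟩
  · rintro ⟨l, hl, rfl⟩
    refine ⟨l * k⁻¹, K.mul_mem hl (K.inv_mem hk), ?_⟩
    simp

/-- the set of regular orbits -/
def Idx (K : Subgroup (Equiv.Perm U)) : Type := {o : Set U // ∃ x, Reg K x ∧ o = orb K x}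

instance [Finite U] : Finite (Idx K) := by
  unfold Idx; infer_instance

/-- a representative of a regular orbit -/
noncomputable def rep (i : Idx K) : U := i.2.choose

lemma rep_reg (i : Idx K) : Reg K (rep i) := i.2.choose_spec.1

lemma orb_rep (i : Idx K) : i.1 = orb K (rep i) := i.2.choose_spec.2

/-- `x` and `0` form a base. -/
def Base0 (hadd : IsAdd K) (x : I → U) : Prop :=
  ∀ g ∈ wr hadd I, g 0 = 0 → g x = x → g = 1

lemma wrPerm_zero (hadd : IsAdd K) {σ : Equiv.Perm I} {k : I → Equiv.Perm U}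
    (hk : ∀ i, k i ∈ K) : wrPerm σ k 0 0 = 0 := by
  funext i
  rw [wrPerm_apply]
  simp [hadd.zero (hk i)]

/-- coordinates of a base partner of `0` are regular -/
lemma Base0.reg {hadd : IsAdd K} {x : I → U} (hx : Base0 hadd x) (i : I) : Reg K (x i) := by
  classical
  intro k hk hfix
  have hmem : ∀ j, Function.update (fun _ : I => (1 : Equiv.Perm U)) i k j ∈ K := by
    intro j
    by_cases h : j = i
    · subst h; rw [Function.update_self]; exact hk
    · rw [Function.update_of_ne h]; exact K.one_mem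
  have h1 := hx (wrPerm 1 (Function.update (fun _ : I => (1 : Equiv.Perm U)) i k) 0)
    (wrPerm_mem hadd hmem) (wrPerm_zero hadd hmem) (by
      funext j
      rw [wrPerm_apply]
      by_cases h : j = i
      · subst h; simp [hfix]
      · simp [h])
  ext w
  have h2 := congrFun (DFunLike.congr_fun h1 (Pi.single i w)) i
  rw [wrPerm_apply] at h2
  simpa using h2

/-- coordinates of a base partner of `0` lie in distinct orbits -/
lemma Base0.ne_orb [Nontrivial U] {hadd : IsAdd K} {x : I → U} (hx : Base0 hadd x) {i j : I}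
    (hij : i ≠ j) : x j ∉ orb K (x i) := by
  classical
  rintro ⟨k, hk, hkx⟩
  set κ : I → Equiv.Perm U :=
    Function.update (Function.update (fun _ : I => (1 : Equiv.Perm U)) i k⁻¹) j k with hκ
  have hκi : κ i = k⁻¹ := by
    rw [hκ, Function.update_of_ne hij, Function.update_self]
  have hκj : κ j = k := by
    rw [hκ, Function.update_self]
  have hκo : ∀ l, l ≠ i → l ≠ j → κ l = 1 := by
    intro l hli hlj
    rw [hκ, Function.update_of_ne hlj, Function.update_of_ne hli]
  have hmem : ∀ l, κ l ∈ K := by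
    intro l
    by_cases hli : l = i
    · rw [hli, hκi]; exact K.inv_mem hk
    · by_cases hlj : l = j
      · rw [hlj, hκj]; exact hk
      · rw [hκo l hli hlj]; exact K.one_mem
  have h1 := hx (wrPerm (Equiv.swap i j) κ 0) (wrPerm_mem hadd hmem) (wrPerm_zero hadd hmem) (by
      funext l
      rw [wrPerm_apply]
      by_cases hli : l = i
      · subst hli
        rw [Equiv.swap_apply_left, hκi, hkx]
        simp
      · by_cases hlj : l = j
        · subst hlj
          rw [Equiv.swap_apply_right, hκj, hkx]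
          simp
        · rw [Equiv.swap_apply_of_ne_of_ne hli hlj, hκo l hli hlj]
          simp)
  obtain ⟨w, hw⟩ := exists_ne (0 : U)
  have h2 := congrFun (DFunLike.congr_fun h1 (Pi.single i w)) i
  rw [wrPerm_apply, Equiv.swap_apply_left, hκi] at h2
  rw [Pi.single_eq_of_ne hij.symm] at h2
  rw [hadd.zero (K.inv_mem hk)] at h2
  simp at h2
  exact hw h2.symm

/-- the orbit map of a base partner -/
def orbMap {hadd : IsAdd K} {x : I → U} (hx : Base0 hadd x) (i : I) : Idx K :=
  ⟨orb K (x i), x i, hx.reg i, rfl⟩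

lemma orbMap_injective [Nontrivial U] {hadd : IsAdd K} {x : I → U} (hx : Base0 hadd x) :
    Function.Injective (orbMap hx) := by
  intro i j hij
  by_contra hne
  apply hx.ne_orb hne
  have h1 : orb K (x i) = orb K (x j) := congrArg Subtype.val hij
  rw [h1]
  exact self_mem_orb _

/-- translating a base -/
lemma base0_sub {hadd : IsAdd K} {β γ : I → U}
    (h : ∀ g ∈ wr hadd I, g β = β → g γ = γ → g = 1) : Base0 hadd (γ - β) := by
  intro g hg h0 hγ
  have ht : wrPerm 1 (fun _ => (1 : Equiv.Perm U)) β ∈ wr hadd I :=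
    wrPerm_mem hadd fun _ => K.one_mem
  set t : Equiv.Perm (I → U) := wrPerm 1 (fun _ => (1 : Equiv.Perm U)) β with htdef
  have htx : ∀ x, t x = x + β := fun x => rfl
  have htinv : ∀ x, t⁻¹ x = x - β := by
    intro x
    rw [Equiv.Perm.inv_eq_iff_eq, htx, sub_add_cancel]
  have h1 := h (t * g * t⁻¹) ((wr hadd I).mul_mem ((wr hadd I).mul_mem ht hg)
    ((wr hadd I).inv_mem ht)) (by
      rw [Equiv.Perm.mul_apply, Equiv.Perm.mul_apply, htinv, sub_self, h0, htx, zero_add]) (by
      rw [Equiv.Perm.mul_apply, Equiv.Perm.mul_apply, htinv, hγ, htx, sub_add_cancel])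
  rw [mul_inv_eq_one] at h1
  exact mul_eq_left.1 h1

/-- `0` and `(u, 0, …, 0)` have no common neighbour -/
lemma no_common [Finite U] [Nontrivial U] {hadd : IsAdd K} {u : U}
    (hu : ∀ k ∈ K, ∀ x : U, x - k x ≠ u) (i₀ : Idx K) (γ : Idx K → U)
    (h0 : ∀ g ∈ wr hadd (Idx K), g 0 = 0 → g γ = γ → g = 1)
    [DecidableEq (Idx K)]
    (h1 : ∀ g ∈ wr hadd (Idx K), g (Pi.single i₀ u) = Pi.single i₀ u → g γ = γ → g = 1) :
    False := by
  have hb0 : Base0 hadd γ := h0
  have hb1 : Base0 hadd (γ - Pi.single i₀ u) := base0_sub h1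
  have hinj0 := orbMap_injective hb0
  have hinj1 := orbMap_injective hb1
  have hsurj1 : Function.Surjective (orbMap hb1) := Finite.surjective_of_injective hinj1
  have hoff : ∀ j, j ≠ i₀ → orbMap hb1 j = orbMap hb0 j := by
    intro j hj
    apply Subtype.ext
    change orb K ((γ - (Pi.single i₀ u : Idx K → U)) j) = orb K (γ j)
    rw [Pi.sub_apply, Pi.single_eq_of_ne hj, sub_zero]
  have heq : orbMap hb1 i₀ = orbMap hb0 i₀ := by
    obtain ⟨j, hj⟩ := hsurj1 (orbMap hb0 i₀)
    by_cases hji : j = i₀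
    · rw [hji] at hj; exact hj
    · rw [hoff j hji] at hj
      exact absurd (hinj0 hj) hji
  have heq' : orb K ((γ - (Pi.single i₀ u : Idx K → U)) i₀) = orb K (γ i₀) :=
    congrArg Subtype.val heq
  rw [Pi.sub_apply, Pi.single_eq_same] at heq'
  have hmem : γ i₀ - u ∈ orb K (γ i₀) := by
    rw [← heq']; exact self_mem_orb _
  obtain ⟨k, hk, hkγ⟩ := hmem
  apply hu k hk (γ i₀)
  rw [← hkγ]
  abel

/-- **The machine.**  An irreducible nontrivial group of automorphisms `K` of `U` with a regular
orbit and an element `u` that is not of the form `x - k x` yields a primitive group of base size two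
whose Saxl graph has two vertices without a common neighbour. -/
theorem machine [Finite U] (hadd : IsAdd K)
    (hirr : ∀ W : AddSubgroup U, (∀ k ∈ K, ∀ w ∈ W, k w ∈ W) → W = ⊥ ∨ W = ⊤)
    (hK : K ≠ ⊥) (hreg : ∃ x : U, Reg K x) {u : U} (hu : ∀ k ∈ K, ∀ x : U, x - k x ≠ u) :
    ¬ (∀ (Ω : Type) [Finite Ω] (G : Subgroup (Equiv.Perm Ω)),
      MulAction.IsPreprimitive G Ω →
      (∃ α β : Ω, ∀ g ∈ G, g α = α → g β = β → g = 1) →
      (∀ α : Ω, ∃ g ∈ G, g α = α ∧ g ≠ 1) →
      ∀ α β : Ω, α ≠ β →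
        ∃ γ : Ω, γ ≠ α ∧ γ ≠ β ∧
          (∀ g ∈ G, g α = α → g γ = γ → g = 1) ∧
          (∀ g ∈ G, g β = β → g γ = γ → g = 1)) := by
  classical
  intro H
  obtain ⟨x₀, hx₀⟩ := hreg
  let i₀ : Idx K := ⟨orb K x₀, x₀, hx₀, rfl⟩
  obtain ⟨k₀, hk₀, hk₀1⟩ : ∃ k ∈ K, k ≠ 1 := by
    by_contra hcon
    push Not at hcon
    exact hK ((Subgroup.eq_bot_iff_forall K).2 hcon)
  have hu0 : u ≠ 0 := by
    intro h
    apply hu 1 K.one_mem 0
    rw [h]; simp
  have : Nontrivial U := ⟨u, 0, hu0⟩
  have hbase : ∃ α β : Idx K → U, ∀ g ∈ wr hadd (Idx K), g α = α → g β = β → g = 1 := by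
    refine ⟨0, rep, ?_⟩
    rintro _ ⟨σ, k, v, hk, rfl⟩ h0 h1
    have hv : v = 0 := by
      funext i
      have := congrFun h0 i
      rw [wrPerm_apply, Pi.zero_apply, hadd.zero (hk i), zero_add] at this
      exact this
    subst hv
    have hfix : ∀ i, k i (rep (σ i)) = rep i := by
      intro i
      have := congrFun h1 i
      rw [wrPerm_apply, Pi.zero_apply, add_zero] at this
      exact this
    have hσ : σ = 1 := by
      ext i : 1
      apply Subtype.ext
      change (σ i).1 = i.1
      rw [orb_rep (σ i), orb_rep i]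
      exact (orb_eq ⟨k i, hk i, (hfix i).symm⟩).symm
    subst hσ
    have hk1 : ∀ i, k i = 1 := fun i => rep_reg i (k i) (hk i) (hfix i)
    ext x i
    rw [wrPerm_apply, hk1 i]
    simp
  have hstab : ∀ α : Idx K → U, ∃ g ∈ wr hadd (Idx K), g α = α ∧ g ≠ 1 := by
    intro α
    set κ : Idx K → Equiv.Perm U := Function.update (fun _ => (1 : Equiv.Perm U)) i₀ k₀ with hκ
    have hκi : κ i₀ = k₀ := by rw [hκ, Function.update_self]
    have hκo : ∀ l, l ≠ i₀ → κ l = 1 := by
      intro l hl
      rw [hκ, Function.update_of_ne hl]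
    have hmem : ∀ l, κ l ∈ K := by
      intro l
      by_cases hl : l = i₀
      · rw [hl, hκi]; exact hk₀
      · rw [hκo l hl]; exact K.one_mem
    refine ⟨wrPerm 1 κ (fun i => α i - κ i (α i)), wrPerm_mem hadd hmem, ?_, ?_⟩
    · funext i
      rw [wrPerm_apply]
      simp
    · intro h1
      apply hk₀1
      have h2 : ∀ x : Idx K → U, ∀ i, κ i (x i) + (α i - κ i (α i)) = x i := by
        intro x i
        have := congrFun (DFunLike.congr_fun h1 x) i
        rw [wrPerm_apply] at this
        exact this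
      have h3 : α i₀ - k₀ (α i₀) = 0 := by
        have := h2 0 i₀
        rw [Pi.zero_apply, hκi, hadd.zero hk₀, zero_add] at this
        exact this
      ext w
      have := h2 (Pi.single i₀ w) i₀
      rw [hκi, h3, add_zero, Pi.single_eq_same] at this
      exact this
  have hne : (0 : Idx K → U) ≠ Pi.single i₀ u := by
    intro h
    have := congrFun h i₀
    rw [Pi.single_eq_same, Pi.zero_apply] at this
    exact hu0 this.symm
  obtain ⟨γ, -, -, hγ0, hγ1⟩ := H (Idx K → U) (wr hadd (Idx K))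
    (wr_preprimitive hadd hirr hK) hbase hstab 0 (Pi.single i₀ u) hne
  exact no_common hu i₀ γ hγ0 hγ1

end Pool.Agent.H3.Saxl
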