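import Mathlib
import Pool.Agent.H3.Saxl.NoNbr

/-!
# The group `A₄` of even signed cyclic permutations on `𝔽₅³`
-/

set_option autoImplicit false

namespace Pool.Agent.H3.Saxl

/-- the space `𝔽₅³` -/
abbrev V5 : Type := Fin 3 → ZMod 5

/-- the signed permutation `x ↦ (i ↦ s i • x (c i))` -/
def sp (c : Equiv.Perm (Fin 3)) (s : Fin 3 → ℤˣ) : Equiv.Perm V5 where
  toFun x i := s i • x (c i)
  invFun y j := (s (c.symm j))⁻¹ • y (c.symm j)
  left_inv x := by
    funext j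
    change (s (c.symm j))⁻¹ • s (c.symm j) • x (c (c.symm j)) = x j
    rw [inv_smul_smul, Equiv.apply_symm_apply]
  right_inv y := by
    funext i
    change s i • (s (c.symm (c i)))⁻¹ • y (c.symm (c i)) = y i
    rw [Equiv.symm_apply_apply, smul_inv_smul]

lemma sp_apply (c : Equiv.Perm (Fin 3)) (s : Fin 3 → ℤˣ) (x : V5) (i : Fin 3) :
    sp c s x i = s i • x (c i) := rfl

/-- the alternating group of degree four, as a group of signed cyclic permutations -/
def A4 : Subgroup (Equiv.Perm V5) where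
  carrier := {g | ∃ (c : Equiv.Perm (Fin 3)) (s : Fin 3 → ℤˣ),
    Equiv.Perm.sign c = 1 ∧ ∏ i, s i = 1 ∧ g = sp c s}
  mul_mem' := by
    rintro _ _ ⟨c, s, hc, hs, rfl⟩ ⟨c', s', hc', hs', rfl⟩
    refine ⟨c' * c, fun i => s i * s' (c i), by rw [map_mul, hc, hc', mul_one], ?_, ?_⟩
    · rw [Finset.prod_mul_distrib, hs, one_mul, Equiv.prod_comp c s', hs']
    · ext x i
      rw [Equiv.Perm.mul_apply, sp_apply, sp_apply, sp_apply, mul_smul]
      rfl
  one_mem' := by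
    refine ⟨1, fun _ => 1, map_one _, by simp, ?_⟩
    ext x i
    rw [sp_apply]
    simp
  inv_mem' := by
    rintro _ ⟨c, s, hc, hs, rfl⟩
    refine ⟨c⁻¹, fun j => (s (c⁻¹ j))⁻¹, by rw [map_inv, hc, inv_one], ?_, ?_⟩
    · rw [Equiv.prod_comp c⁻¹ (fun j => (s j)⁻¹), Finset.prod_inv_distrib, hs, inv_one]
    · rw [inv_eq_iff_mul_eq_one]
      ext x i
      rw [Equiv.Perm.mul_apply, sp_apply, sp_apply]
      change s i • (s (c.symm (c i)))⁻¹ • x (c.symm (c i)) = x i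
      rw [Equiv.symm_apply_apply, smul_inv_smul]

lemma A4_isAdd : IsAdd A4 := by
  rintro _ ⟨c, s, -, -, rfl⟩ x y
  funext i
  rw [Pi.add_apply, sp_apply, sp_apply, sp_apply, Pi.add_apply, smul_add]

/-- the key computation: `(1, 1, 1)` is not of the form `x - k x` -/
lemma A4_key : ∀ (c : Equiv.Perm (Fin 3)) (s : Fin 3 → ℤˣ), Equiv.Perm.sign c = 1 →
    ∏ i, s i = 1 → ∀ x : V5, ¬ (∀ i, x i - s i • x (c i) = 1) := by
  decide +kernel

lemma A4_reg_aux : ∀ (c : Equiv.Perm (Fin 3)) (s : Fin 3 → ℤˣ), Equiv.Perm.sign c = 1 →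
    ∏ i, s i = 1 → (∀ i, s i • (![1, 2, 0] : V5) (c i) = (![1, 2, 0] : V5) i) →
    c = 1 ∧ s = fun _ => 1 := by
  decide +kernel

lemma sp_mem {c : Equiv.Perm (Fin 3)} {s : Fin 3 → ℤˣ} (hc : Equiv.Perm.sign c = 1)
    (hs : ∏ i, s i = 1) : sp c s ∈ A4 := ⟨c, s, hc, hs, rfl⟩

lemma A4_hu : ∀ k ∈ A4, ∀ x : V5, x - k x ≠ 1 := by
  rintro _ ⟨c, s, hc, hs, rfl⟩ x h
  refine A4_key c s hc hs x fun i => ?_
  have := congrFun h i
  rwa [Pi.sub_apply, sp_apply, Pi.one_apply] at this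

lemma A4_reg : ∃ x : V5, Reg A4 x := by
  refine ⟨![1, 2, 0], ?_⟩
  rintro _ ⟨c, s, hc, hs, rfl⟩ h
  obtain ⟨rfl, rfl⟩ := A4_reg_aux c s hc hs fun i => by
    have := congrFun h i
    rwa [sp_apply] at this
  ext x i
  rw [sp_apply]
  simp

lemma A4_ne_bot : A4 ≠ ⊥ := by
  intro h
  have hmem : sp 1 ![1, -1, -1] ∈ A4 := sp_mem (map_one _) (by decide)
  rw [h, Subgroup.mem_bot] at hmem
  have h1 := congrFun (DFunLike.congr_fun hmem (1 : V5)) 1
  rw [sp_apply] at h1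
  revert h1
  decide

lemma A4_irr (W : AddSubgroup V5) (hW : ∀ k ∈ A4, ∀ w ∈ W, k w ∈ W) : W = ⊥ ∨ W = ⊤ := by
  rw [or_iff_not_imp_left]
  intro hne
  obtain ⟨w, hw, hw0⟩ : ∃ w, w ∈ W ∧ w ≠ 0 := by
    by_contra hcon
    push Not at hcon
    apply hne
    rw [AddSubgroup.eq_bot_iff_forall]
    exact hcon
  obtain ⟨j, hj⟩ : ∃ j, w j ≠ 0 := Function.ne_iff.1 hw0
  -- `2 w_j e_j ∈ W`
  have hprod : ∀ j : Fin 3, ∏ i, (if i = j then (1 : ℤˣ) else -1) = 1 := by decide
  have h1 : (Pi.single j (2 * w j) : V5) ∈ W := by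
    have h2 : sp 1 (fun i => if i = j then 1 else -1) ∈ A4 :=
      sp_mem (map_one _) (hprod j)
    have h3 := W.add_mem hw (hW _ h2 w hw)
    have h4 : w + sp 1 (fun i => if i = j then 1 else -1) w = Pi.single j (2 * w j) := by
      funext i
      rw [Pi.add_apply, sp_apply]
      by_cases h : i = j
      · subst h
        simp [two_mul]
      · simp [h]
    rwa [h4] at h3
  -- all multiples of `e_j`
  have h2 : ∀ a : ZMod 5, (Pi.single j a : V5) ∈ W := by
    intro a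
    have h3 : ∃ n : ℕ, a = n • (2 * w j) := by
      generalize w j = b at hj
      revert a b
      have key : ∀ a b : ZMod 5, b ≠ 0 → ∃ n : Fin 5, a = n.val • (2 * b) := by decide
      intro a b hb
      obtain ⟨n, hn⟩ := key a b hb
      exact ⟨n.val, hn⟩
    obtain ⟨n, rfl⟩ := h3
    have h4 : (Pi.single j (n • (2 * w j)) : V5) = n • Pi.single j (2 * w j) := by
      rw [← Pi.single_smul]
    rw [h4]
    exact W.nsmul_mem h1 n
  -- all multiples of all `e_i`
  have h3 : ∀ (i : Fin 3) (a : ZMod 5), (Pi.single i a : V5) ∈ W := by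
    intro i a
    obtain ⟨c, hc, hci⟩ : ∃ c : Equiv.Perm (Fin 3), Equiv.Perm.sign c = 1 ∧ c i = j := by
      have key : ∀ i j : Fin 3, ∃ c : Equiv.Perm (Fin 3), Equiv.Perm.sign c = 1 ∧ c i = j := by
        decide
      exact key i j
    have h4 := hW _ (sp_mem (s := fun _ => 1) hc (by simp)) _ (h2 a)
    have h5 : sp c (fun _ => 1) (Pi.single j a) = Pi.single i a := by
      funext l
      rw [sp_apply, one_smul]
      by_cases h : l = i
      · subst h
        rw [hci, Pi.single_eq_same, Pi.single_eq_same]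
      · rw [Pi.single_eq_of_ne h, Pi.single_eq_of_ne]
        intro h6
        apply h
        apply c.injective
        rw [h6, hci]
    rwa [h5] at h4
  rw [eq_top_iff]
  intro v _
  have h5 : v = ∑ i, Pi.single i (v i) := (Finset.univ_sum_single v).symm
  rw [h5]
  exact W.sum_mem fun i _ => h3 i (v i)

/-- The counterexample: `A₄` on `𝔽₅³` has eight regular orbits and `(1, 1, 1)` is not of the
form `x - k x`; hence the affine group `5²⁴ : (A₄ ≀ S₈)` of degree `5²⁴` is a counterexample. -/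
theorem counterexample :
    ¬ (∀ (Ω : Type) [Finite Ω] (G : Subgroup (Equiv.Perm Ω)),
      MulAction.IsPreprimitive G Ω →
      (∃ α β : Ω, ∀ g ∈ G, g α = α → g β = β → g = 1) →
      (∀ α : Ω, ∃ g ∈ G, g α = α ∧ g ≠ 1) →
      ∀ α β : Ω, α ≠ β →
        ∃ γ : Ω, γ ≠ α ∧ γ ≠ β ∧
          (∀ g ∈ G, g α = α → g γ = γ → g = 1) ∧
          (∀ g ∈ G, g β = β → g γ = γ → g = 1)) :=
  machine A4_isAdd A4_irr A4_ne_bot A4_reg A4_hu

end Pool.Agent.H3.Saxl
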